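import Mathlib
import Pool.Agent.Q102.MonoCirc

/-!
# The orders `n ≥ 11` of circulant graphs with diameter two and monophonic position number two

They are all `n ≥ 11` except `n = 15`. The definitions of induced paths, monophonic position sets
and the monophonic position number are in `Pool.Agent.Q102.MonoPos`; circulant graphs and the
diameter are those of Mathlib.
-/

set_option autoImplicit false

open SimpleGraph

namespace Pool.Agent.Results.MP_1f00fa_co.Classification

open Pool.Agent.Q102.MonoPos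

/-! ### Small cases -/

/-- The criterion for a finite symmetric connection set. -/
def Crit (n : ℕ) [NeZero n] (F : Finset (ZMod n)) : Prop :=
  (∀ x ∈ F, -x ∈ F) ∧ (0 : ZMod n) ∉ F ∧ (∀ a ∈ F, ∀ b ∈ F, a + b ∉ F) ∧
    (∀ a : ZMod n, a ≠ 0 → a ∉ F → ∃ m ∈ F, a - m ∈ F) ∧
    ∀ a b : ZMod n, a ≠ 0 → b ≠ 0 → a ≠ b → a ∉ F → b ∉ F → b - a ∉ F →
      ((∃ m ∈ F, m - a ∈ F ∧ m - b ∉ F) ∧ (∃ m ∈ F, m - b ∈ F ∧ m - a ∉ F)) ∨
      ((∃ m ∈ F, m - a ∈ F ∧ m - b ∉ F) ∧ (∃ m, m ∉ F ∧ m - a ∈ F ∧ m - b ∈ F)) ∨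
      ((∃ m ∈ F, m - b ∈ F ∧ m - a ∉ F) ∧ (∃ m, m ∉ F ∧ m - a ∈ F ∧ m - b ∈ F))

theorem good_of_crit (n : ℕ) [NeZero n] (F : Finset (ZMod n)) (h : Crit n F) :
    Good (circulantGraph (F : Set (ZMod n))) := by
  obtain ⟨hs, h0, h1, h2, h3⟩ := h
  refine good_of_zero hs h0 h1 h2 fun a b ha hb hab na nb nab => ?_
  have hadj : ∀ u v : ZMod n, (circulantGraph (F : Set (ZMod n))).Adj u v ↔ v - u ∈ F :=
    adj_iff hs h0
  have hsy : ∀ x y : ZMod n, x - y ∈ F ↔ y - x ∈ F := by
    intro x y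
    constructor
    · intro h
      have := hs _ h
      rwa [neg_sub] at this
    · intro h
      have := hs _ h
      rwa [neg_sub] at this
  rcases h3 a b ha hb hab na nb nab with ⟨⟨m, m1, m2, m3⟩, ⟨p, p1, p2, p3⟩⟩ |
    ⟨⟨m, m1, m2, m3⟩, ⟨p, p1, p2, p3⟩⟩ | ⟨⟨m, m1, m2, m3⟩, ⟨p, p1, p2, p3⟩⟩
  · -- `0` in the middle
    refine Or.inr (Or.inr ⟨⟨p, ?_, ?_, ?_⟩, ⟨m, ?_, ?_, ?_⟩⟩)
    · rwa [hadj]
    · rwa [hadj, hsy, sub_zero]
    · rwa [hadj, hsy]
    · rwa [hadj, sub_zero]
    · rwa [hadj, hsy]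
    · rwa [hadj, hsy]
  · -- `a` in the middle
    refine Or.inl ⟨⟨m, ?_, ?_, ?_⟩, ⟨p, ?_, ?_, ?_⟩⟩
    · rwa [hadj, sub_zero]
    · rwa [hadj, hsy]
    · rwa [hadj, hsy]
    · rwa [hadj]
    · rwa [hadj, hsy]
    · rwa [hadj, hsy, sub_zero]
  · -- `b` in the middle
    refine Or.inr (Or.inl ⟨⟨p, ?_, ?_, ?_⟩, ⟨m, ?_, ?_, ?_⟩⟩)
    · rwa [hadj]
    · rwa [hadj, hsy]
    · rwa [hadj, hsy, sub_zero]
    · rwa [hadj]
    · rwa [hadj, hsy, sub_zero]
    · rwa [hadj, hsy]

theorem exists_of_crit (n : ℕ) [NeZero n] [Fact (1 < n)] (F : Finset (ZMod n)) (h : Crit n F)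
    (h1 : (1 : ZMod n) ∉ F ∨ (3 : ZMod n) ∉ F) (h3 : (3 : ZMod n) ≠ 0) :
    ∃ s : Set (ZMod n), mp (circulantGraph s) = 2 ∧ (circulantGraph s).diam = 2 := by
  refine ⟨F, (good_of_crit n F h).mp_eq_two, (good_of_crit n F h).diam_eq_two ?_⟩
  have hadj : ∀ u v : ZMod n, (circulantGraph (F : Set (ZMod n))).Adj u v ↔ v - u ∈ F :=
    adj_iff h.1 h.2.1
  rcases h1 with h1 | h1
  · exact ⟨0, 1, zero_ne_one, by rwa [hadj, sub_zero]⟩
  · exact ⟨0, 3, h3.symm, by rwa [hadj, sub_zero]⟩

theorem exists_14 : ∃ s : Set (ZMod 14), mp (circulantGraph s) = 2 ∧ (circulantGraph s).diam = 2 := by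
  have : Fact (1 < 14) := ⟨by norm_num⟩
  exact exists_of_crit 14 {2, 3, 7, 11, 12} 
    ⟨by decide, by decide, by decide, by decide, by decide +kernel⟩ (Or.inl (by decide)) (by decide)

theorem exists_16 : ∃ s : Set (ZMod 16), mp (circulantGraph s) = 2 ∧ (circulantGraph s).diam = 2 := by
  have : Fact (1 < 16) := ⟨by norm_num⟩
  exact exists_of_crit 16 {3, 7, 8, 9, 13} 
    ⟨by decide, by decide, by decide, by decide, by decide +kernel⟩ (Or.inl (by decide)) (by decide)

theorem exists_22 : ∃ s : Set (ZMod 22), mp (circulantGraph s) = 2 ∧ (circulantGraph s).diam = 2 := by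
  have : Fact (1 < 22) := ⟨by norm_num⟩
  exact exists_of_crit 22 {2, 3, 7, 11, 15, 19, 20} 
    ⟨by decide, by decide, by decide, by decide, by decide +kernel⟩ (Or.inl (by decide)) (by decide)

/-- The interval family. -/
theorem exists_of_interval {n k : ℕ} (hk : 2 ≤ k) (h1 : 6 * k - 1 ≤ n) (h2 : n ≤ 8 * k - 3) :
    ∃ s : Set (ZMod n), mp (circulantGraph s) = 2 ∧ (circulantGraph s).diam = 2 := by
  have : NeZero n := ⟨by omega⟩
  have : Fact (1 < n) := ⟨by omega⟩
  have hG := good_sk hk h1 h2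
  exact ⟨_, hG.mp_eq_two, hG.diam_eq_two (nonadj_sk hk h1 h2)⟩

theorem exists_all (n : ℕ) (hn : 11 ≤ n) (h15 : n ≠ 15) :
    ∃ s : Set (ZMod n), mp (circulantGraph s) = 2 ∧ (circulantGraph s).diam = 2 := by
  by_cases h14 : n = 14
  · subst h14
    exact exists_14
  by_cases h16 : n = 16
  · subst h16
    exact exists_16
  by_cases h22 : n = 22
  · subst h22
    exact exists_22
  exact exists_of_interval (k := (n + 1) / 6) (by omega) (by omega) (by omega)

/-! ### The order 15 -/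

/-- The symmetric set of residues modulo 15 with given membership of `1, ..., 7`. -/
def ext (f : Fin 7 → Bool) (x : ZMod 15) : Bool :=
  if h : x.val = 0 then false
  else if h7 : x.val ≤ 7 then f ⟨x.val - 1, by omega⟩ else f ⟨14 - x.val, by omega⟩

theorem finite_check : ∀ f : Fin 7 → Bool,
    (∀ x : ZMod 15, x ≠ 0 → ext f x = true ∨ ∃ y, ext f y = true ∧ ext f (x - y) = true) →
    (∃ a b : ZMod 15, ext f a = true ∧ ext f b = true ∧ ext f (a + b) = true) ∨
      ∀ x : ZMod 15, ext f x = ext f (x - 5) := by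
  decide +kernel

theorem none_15 (s : Set (ZMod 15)) (hmp : mp (circulantGraph s) = 2)
    (hdiam : (circulantGraph s).diam = 2) : False := by
  classical
  set G := circulantGraph s with hG
  have htr : ∀ u v d : ZMod 15, G.Adj (u + d) (v + d) ↔ G.Adj u v := fun u v d =>
    circulantGraph_adj_translate
  -- adjacency in terms of differences
  have hdiff : ∀ u v : ZMod 15, G.Adj u v ↔ G.Adj 0 (v - u) := by
    intro u v
    rw [← htr 0 (v - u) u, zero_add, sub_add_cancel]
  have hneg : ∀ x : ZMod 15, G.Adj 0 (-x) ↔ G.Adj 0 x := by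
    intro x
    rw [← htr 0 (-x) x, zero_add, neg_add_cancel, G.adj_comm]
  let f : Fin 7 → Bool := fun i => decide (G.Adj 0 (((i.val + 1 : ℕ) : ZMod 15)))
  have hext : ∀ x : ZMod 15, (ext f x = true) ↔ G.Adj 0 x := by
    intro x
    have hx : ((x.val : ℕ) : ZMod 15) = x := ZMod.natCast_zmod_val x
    unfold ext
    split_ifs with h0 h7
    · have : x = 0 := by
        rw [← hx]
        have : x.val = 0 := h0
        rw [this]
        rfl
      rw [this]
      simp
    · simp only [f, decide_eq_true_iff]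
      have h1 : x.val - 1 + 1 = x.val := by
        have : ¬ x.val = 0 := h0
        omega
      change G.Adj 0 ((x.val - 1 + 1 : ℕ) : ZMod 15) ↔ _
      rw [h1, hx]
    · simp only [f, decide_eq_true_iff]
      have hlt := ZMod.val_lt x
      change G.Adj 0 ((14 - x.val + 1 : ℕ) : ZMod 15) ↔ _
      have h1 : ((14 - x.val + 1 : ℕ) : ZMod 15) = -x := by
        have h2 : 14 - x.val + 1 = 15 - x.val := by omega
        rw [h2, Nat.cast_sub hlt.le, hx]
        have : ((15 : ℕ) : ZMod 15) = 0 := by decide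
        rw [this, zero_sub]
      rw [h1, hneg]
  -- diameter two
  have hne : G.ediam ≠ ⊤ := ediam_ne_top_of_diam_ne_zero (by rw [hdiam]; norm_num)
  have hconn : G.Connected := connected_of_ediam_ne_top hne
  have hcov : ∀ x : ZMod 15, x ≠ 0 → ext f x = true ∨
      ∃ y, ext f y = true ∧ ext f (x - y) = true := by
    intro x hx
    obtain ⟨p, hp⟩ := hconn.exists_walk_length_eq_dist 0 x
    have hle : p.length ≤ 2 := by
      rw [hp, ← hdiam]
      exact dist_le_diam hne
    match p, hle with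
    | .nil, _ => exact absurd rfl hx
    | .cons h .nil, _ => exact Or.inl ((hext _).mpr h)
    | .cons (v := y) h (.cons h' .nil), _ =>
      refine Or.inr ⟨y, (hext _).mpr h, (hext _).mpr ?_⟩
      rwa [← hdiff]
    | .cons _ (.cons _ (.cons _ _)), hle =>
      simp only [Walk.length_cons] at hle
      omega
  rcases finite_check f hcov with ⟨a, b, ha, hb, hab⟩ | htw
  · have ha' : G.Adj 0 (a : ZMod 15) := (hext a).mp ha
    have hb' : G.Adj 0 (b : ZMod 15) := (hext b).mp hb
    have hab' : G.Adj 0 ((a : ZMod 15) + b) := (hext _).mp hab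
    have h1 : G.Adj (a : ZMod 15) ((a : ZMod 15) + b) := by
      rw [hdiff]
      rwa [add_sub_cancel_left]
    have := three_le_mp_of_triangle ha' h1 hab'
    omega
  · have htw' : ∀ x : ZMod 15, G.Adj 0 x ↔ G.Adj 0 (x - 5) := by
      intro x
      rw [← hext, ← hext]
      rw [show ext f x = ext f (x - 5) from htw x]
    have h5 : ∀ x, G.Adj (0 : ZMod 15) x ↔ G.Adj (5 : ZMod 15) x := by
      intro x
      rw [hdiff 5 x]
      exact htw' x
    have h10 : ∀ x, G.Adj (0 : ZMod 15) x ↔ G.Adj (10 : ZMod 15) x := by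
      intro x
      rw [hdiff 10 x, htw' x, htw' (x - 5)]
      have : x - 5 - 5 = x - 10 := by ring
      rw [this]
    have := three_le_mp_of_twins (G := G) (a := 0) (b := 5) (c := 10) (by decide) (by decide)
      (by decide) h5 h10
    omega

/-- For `n ≥ 11` there is a circulant graph of order `n` with monophonic position number `2` and
diameter `2` if and only if `n ≠ 15`. -/
theorem result (n : ℕ) (hn : 11 ≤ n) :
    (∃ s : Set (ZMod n), mp (circulantGraph s) = 2 ∧ (circulantGraph s).diam = 2) ↔ n ≠ 15 := by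
  constructor
  · rintro ⟨s, h1, h2⟩ rfl
    exact none_15 s h1 h2
  · exact exists_all n hn

end Pool.Agent.Results.MP_1f00fa_co.Classification
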